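import Pool.Agent.H648.Q.Defs
import Pool.Graph.R_seed8.W347.GS.Pair

/-!
# Q648 B2: far pairs contribute little
-/

set_option autoImplicit false

namespace Pool.Agent.H233.Q648

open Finset Filter
open Pool.Agent.H376R2.MR (FK Fj Fj_le Fj_le_sq)
open Pool.Agent.W78.GA (Qd nm prim bg dt ip ang pball ball DPG ps kap lat mem_pball prim_ne_zero)
open Pool.Agent.W803.GA (rd abs_rd_le rd_eq Fj_rd ang_mul geom_half geom_quarter pt_bound sqrt_disc)
open Pool.Agent.H648.Q

variable {g : ℕ → ℤ} {t c : ℤ}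

/-- the pointwise bound -/
theorem far_pt {K : ℕ} {T : ℝ} (hT : 1 ≤ T) (hK : 1 ≤ K) (P : Prop) [Decidable P] (x : ℝ)
    [Decidable (P ∧ |rd x| ≤ T / K)] [∀ j : ℕ, Decidable (|rd x| ≤ 2 ^ (j + 1) * T / K)] :
      (if P then Fj K x else 0) ≤
      (if P ∧ |rd x| ≤ T / K then (K : ℝ) else 0) +
      ∑ j ∈ range (K + 2), (if |rd x| ≤ 2 ^ (j + 1) * T / K then
        Real.pi ^ 2 * K / (T ^ 2) * (1 / 4) ^ j else 0) := by
  have hKR : (1 : ℝ) ≤ K := by exact_mod_cast hK
  have hK0 : (0 : ℝ) < K := by linarith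
  have hT0 : 0 < T := by linarith
  have h1 := pt_bound hK hT (abs_rd_le x)
  have h2 : 0 ≤ ∑ j ∈ range (K + 2), (if |rd x| ≤ 2 ^ (j + 1) * T / K then
      Real.pi ^ 2 * K / (T ^ 2) * (1 / 4) ^ j else 0) := by
    apply Finset.sum_nonneg
    intro j _
    split_ifs
    · positivity
    · exact le_rfl
  have h1' : Fj K (rd x) ≤ (if |rd x| ≤ T / K then (K : ℝ) else 0) +
      ∑ j ∈ range (K + 2), (if |rd x| ≤ 2 ^ (j + 1) * T / K then
        Real.pi ^ 2 * K / (T ^ 2) * (1 / 4) ^ j else 0) := by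
    refine h1.trans (add_le_add ?_ (Finset.sum_le_sum fun j _ => ?_))
    · split_ifs <;> exact le_rfl
    · split_ifs <;> exact le_rfl
  by_cases hg : P
  · rw [if_pos hg, Fj_rd]
    refine h1'.trans ?_
    apply add_le_add _ le_rfl
    by_cases hn : |rd x| ≤ T / K
    · rw [if_pos hn, if_pos ⟨hg, hn⟩]
    · rw [if_neg hn]
      split_ifs
      · positivity
      · exact le_rfl
  · rw [if_neg hg]
    have : 0 ≤ (if P ∧ |rd x| ≤ T / K then (K : ℝ) else 0) := by
      split_ifs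
      · positivity
      · exact le_rfl
    linarith

open scoped Classical in
/-- the far pairs -/
theorem far_sum (hD : t ^ 2 < 4 * c) : ∃ C : ℝ, 0 < C ∧ ∀ (X T : ℝ) (K : ℕ) (u : Qd t c), 1 ≤ X →
    1 ≤ T → 1 ≤ K → u ≠ 0 → ∑ z ∈ pball t c X, ∑ z' ∈ pball t c X,
      ∑ j ∈ range (K + 2), (if |rd (ang z - ang (u * z'))| ≤ 2 ^ (j + 1) * T / K then
        Real.pi ^ 2 * K / (T ^ 2) * (1 / 4) ^ j else 0) ≤
      C * (X ^ 2 / T + X * K / T ^ 2) := by
  obtain ⟨C, hC, hS⟩ := Pool.Agent.W803.GA.sect hD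
  obtain ⟨CL, hCL, hL, -⟩ := Pool.Agent.W45.GA.lat hD
  have hpi := Real.pi_pos
  have hkap : 0 < kap t c := by
    unfold kap
    have := sqrt_disc hD
    positivity
  refine ⟨(kap t c + CL) * (8 * C * Real.pi ^ 2), by positivity, ?_⟩
  intro X T K u hX hT hK hu0
  have hX0 : 0 < X := by linarith
  have hT0 : 0 < T := by linarith
  have hKR : (1 : ℝ) ≤ K := by exact_mod_cast hK
  have hK0 : (0 : ℝ) < K := by linarith
  set r : Qd t c → Qd t c → ℝ := fun z z' => rd (ang z - ang (u * z')) with hr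
  have hone : ∀ z ∈ pball t c X, ∑ z' ∈ pball t c X,
      ∑ j ∈ range (K + 2), (if |r z z'| ≤ 2 ^ (j + 1) * T / K then
        Real.pi ^ 2 * K / (T ^ 2) * (1 / 4) ^ j else 0) ≤
      8 * C * Real.pi ^ 2 * (X / T + K / T ^ 2) := by
    intro z _
    rw [Finset.sum_comm]
    have hj : ∀ j ∈ range (K + 2), ∑ z' ∈ pball t c X, (if |r z z'| ≤ 2 ^ (j + 1) * T / K then
        Real.pi ^ 2 * K / (T ^ 2) * (1 / 4) ^ j else 0) ≤
        2 * C * Real.pi ^ 2 * X / T * (1 / 2) ^ j + C * Real.pi ^ 2 * K / T ^ 2 * (1 / 4) ^ j := by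
      intro j _
      rw [← Finset.sum_filter, Finset.sum_const, nsmul_eq_mul]
      set δ := min Real.pi (2 ^ (j + 1) * T / K) with hδd
      have hδ0 : 0 ≤ δ := le_min hpi.le (by positivity)
      have hsub : (pball t c X).filter (fun z' => |r z z'| ≤ 2 ^ (j + 1) * T / K) ⊆
          (pball t c X).filter (fun z' => ∃ m : ℤ, |ang z' - (ang z - ang u) + 2 * Real.pi * m| ≤ δ) := by
        intro z' hz'
        rw [mem_filter] at hz' ⊢
        refine ⟨hz'.1, ?_⟩
        obtain ⟨m, hm⟩ := rd_eq (ang z - ang (u * z'))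
        obtain ⟨j1, hj1⟩ := ang_mul hD hu0 (prim_ne_zero ((mem_pball hD).1 hz'.1).1)
        refine ⟨j1 - m, ?_⟩
        have e1 : ang z' - (ang z - ang u) + 2 * Real.pi * ((j1 - m : ℤ) : ℝ) = -(r z z') := by
          rw [hr]
          simp only
          rw [hm, hj1]
          push_cast; ring
        rw [e1, abs_neg]
        exact le_min (abs_rd_le _) hz'.2
      have h1 : (((pball t c X).filter (fun z' => |r z z'| ≤ 2 ^ (j + 1) * T / K)).card : ℝ) ≤
          C * (X * (2 ^ (j + 1) * T / K) + 1) := by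
        have h2 := hS X δ (ang z - ang u) hX hδ0 (min_le_left _ _)
        have h3 : (((pball t c X).filter (fun z' => |r z z'| ≤ 2 ^ (j + 1) * T / K)).card : ℝ) ≤
            (((pball t c X).filter (fun z' => ∃ m : ℤ,
              |ang z' - (ang z - ang u) + 2 * Real.pi * m| ≤ δ)).card : ℝ) := by
          exact_mod_cast Finset.card_le_card hsub
        have h4 : C * (X * δ + 1) ≤ C * (X * (2 ^ (j + 1) * T / K) + 1) := by
          apply mul_le_mul_of_nonneg_left _ hC.le
          have := mul_le_mul_of_nonneg_left (min_le_right Real.pi (2 ^ (j + 1) * T / K)) hX0.le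
          linarith
        exact h3.trans (h2.trans h4)
      calc _ ≤ C * (X * (2 ^ (j + 1) * T / K) + 1) * (Real.pi ^ 2 * K / T ^ 2 * (1 / 4) ^ j) :=
            mul_le_mul_of_nonneg_right h1 (by positivity)
        _ = 2 * C * Real.pi ^ 2 * X / T * (1 / 2) ^ j + C * Real.pi ^ 2 * K / T ^ 2 * (1 / 4) ^ j := by
            have e1 : (2 : ℝ) ^ (j + 1) * (1 / 4) ^ j = 2 * (1 / 2) ^ j := by
              rw [pow_succ, mul_comm ((2 : ℝ) ^ j) 2, mul_assoc, ← mul_pow]; norm_num
            have e2 : C * (X * (2 ^ (j + 1) * T / K) + 1) * (Real.pi ^ 2 * K / T ^ 2 * (1 / 4) ^ j) =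
                C * X * Real.pi ^ 2 / T * (2 ^ (j + 1) * (1 / 4) ^ j) +
                  C * Real.pi ^ 2 * K / T ^ 2 * (1 / 4) ^ j := by
              field_simp
            rw [e2, e1]; ring
    refine (Finset.sum_le_sum hj).trans ?_
    rw [Finset.sum_add_distrib, ← Finset.mul_sum, ← Finset.mul_sum]
    have g1 := mul_le_mul_of_nonneg_left (geom_half (K + 2))
      (by positivity : 0 ≤ 2 * C * Real.pi ^ 2 * X / T)
    have g2 := mul_le_mul_of_nonneg_left (geom_quarter (K + 2))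
      (by positivity : 0 ≤ C * Real.pi ^ 2 * K / T ^ 2)
    have g3 : 0 ≤ C * Real.pi ^ 2 * X / T := by positivity
    have g4 : 0 ≤ C * Real.pi ^ 2 * K / T ^ 2 := by positivity
    calc _ ≤ 2 * C * Real.pi ^ 2 * X / T * 2 + C * Real.pi ^ 2 * K / T ^ 2 * 2 := add_le_add g1 g2
      _ = 4 * (C * Real.pi ^ 2 * X / T) + 2 * (C * Real.pi ^ 2 * K / T ^ 2) := by ring
      _ ≤ 8 * (C * Real.pi ^ 2 * X / T) + 8 * (C * Real.pi ^ 2 * K / T ^ 2) := by linarith
      _ = 8 * C * Real.pi ^ 2 * (X / T + K / T ^ 2) := by ring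
  refine (Finset.sum_le_sum hone).trans ?_
  rw [Finset.sum_const, nsmul_eq_mul]
  have hcard : ((pball t c X).card : ℝ) ≤ (kap t c + CL) * X := by
    have h1 : ((pball t c X).card : ℝ) ≤ ((ball t c X).card : ℝ) := by
      exact_mod_cast Finset.card_le_card (Finset.filter_subset _ _)
    have hL1 := hL X 1 0 hX le_rfl
    rw [filter_true_of_mem (by intro z _; unfold lat; simp)] at hL1
    have h2 := (abs_le.1 hL1).2
    rw [Nat.cast_one, div_one] at h2
    have h3 : Real.sqrt X ≤ X := by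
      rw [Real.sqrt_le_left hX0.le]
      nlinarith
    have h4 := mul_le_mul_of_nonneg_left h3 hCL.le
    linarith
  calc ((pball t c X).card : ℝ) * (8 * C * Real.pi ^ 2 * (X / T + K / T ^ 2))
      ≤ (kap t c + CL) * X * (8 * C * Real.pi ^ 2 * (X / T + K / T ^ 2)) :=
        mul_le_mul_of_nonneg_right hcard (by positivity)
    _ = (kap t c + CL) * (8 * C * Real.pi ^ 2) * (X ^ 2 / T + X * K / T ^ 2) := by ring

/-- the discriminant of the order of conductor `L` -/
theorem disc_L {b m : ℤ} (hD : b ^ 2 < 4 * m) {L : ℕ} (hL : 1 ≤ L) :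
    (b * L) ^ 2 < 4 * (m * (L : ℤ) ^ 2) := by
  have h1 : (0 : ℤ) < (L : ℤ) ^ 2 := by positivity
  have := mul_lt_mul_of_pos_right hD h1
  linarith

theorem far_of {g : ℕ → ℤ} {b m : ℤ} (hD : b ^ 2 < 4 * m) : S_FAR g b m := by
  classical
  intro L hL
  obtain ⟨C, hC, hfar⟩ := far_sum (disc_L hD hL)
  refine ⟨C, hC, ?_⟩
  intro e X T K u hX hT hK hTK hu0
  have hK0 : (0 : ℝ) ≤ K := Nat.cast_nonneg K
  have hT0 : 0 < T := by linarith
  have hf := hfar X T K u hX hT hK hu0
  have hsub : UU b m L e X ⊆ pball (b * L) (m * L ^ 2) X := Finset.filter_subset _ _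
  have hpt : FS g b m L e u K X ≤
      ∑ z ∈ UU b m L e X, ∑ z' ∈ UU b m L e X,
        ((if g (nm z) ≠ g (nm (u * z')) ∧ |rd (ang z - ang (u * z'))| ≤ T / K then (K : ℝ) else 0) +
        ∑ j ∈ range (K + 2), (if |rd (ang z - ang (u * z'))| ≤ 2 ^ (j + 1) * T / K then
          Real.pi ^ 2 * K / (T ^ 2) * (1 / 4) ^ j else 0)) := by
    unfold FS
    exact Finset.sum_le_sum fun z _ => Finset.sum_le_sum fun z' _ => far_pt hT hK _ _
  refine hpt.trans ?_
  simp only [Finset.sum_add_distrib]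
  refine add_le_add (le_of_eq ?_) ?_
  · rw [← Finset.sum_product', ← Finset.sum_filter, Finset.sum_const, nsmul_eq_mul, mul_comm]
    rfl
  · refine le_trans ?_ hf
    have nn : ∀ z z' : Qd (b * L) (m * L ^ 2), 0 ≤ ∑ j ∈ range (K + 2),
        (if |rd (ang z - ang (u * z'))| ≤ 2 ^ (j + 1) * T / K then
          Real.pi ^ 2 * K / (T ^ 2) * (1 / 4) ^ j else 0) := by
      intro z z'
      apply Finset.sum_nonneg
      intro j _
      split_ifs
      · positivity
      · exact le_rfl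
    calc _ ≤ ∑ z ∈ UU b m L e X, ∑ z' ∈ pball (b * L) (m * L ^ 2) X, ∑ j ∈ range (K + 2),
        (if |rd (ang z - ang (u * z'))| ≤ 2 ^ (j + 1) * T / K then
          Real.pi ^ 2 * K / (T ^ 2) * (1 / 4) ^ j else 0) :=
          Finset.sum_le_sum fun z _ => Finset.sum_le_sum_of_subset_of_nonneg hsub
            fun z' _ _ => nn z z'
      _ ≤ ∑ z ∈ pball (b * L) (m * L ^ 2) X, ∑ z' ∈ pball (b * L) (m * L ^ 2) X,
        ∑ j ∈ range (K + 2),
        (if |rd (ang z - ang (u * z'))| ≤ 2 ^ (j + 1) * T / K then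
          Real.pi ^ 2 * K / (T ^ 2) * (1 / 4) ^ j else 0) :=
          Finset.sum_le_sum_of_subset_of_nonneg hsub
            fun z _ _ => Finset.sum_nonneg fun z' _ => nn z z'
      _ = _ := by
          refine Finset.sum_congr rfl fun z _ => Finset.sum_congr rfl fun z' _ =>
            Finset.sum_congr rfl fun j _ => ?_
          split_ifs <;> rfl

end Pool.Agent.H233.Q648
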